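import Pool.Agent.H77.TL.Stm

/-! # Crew TL, part BASE: the level one inequality for dense sets, analytic part -/

set_option autoImplicit false

namespace Pool.MP324

open Real

namespace BaseAux

/-- Padé bound -/
theorem log_le_pade {x : ℝ} (hx : 0 < x) : log x ≤ (x ^ 2 + 4 * x - 5) / (4 * x + 2) := by
  have hd : ∀ y : ℝ, 0 < y → HasDerivAt (fun y : ℝ => (y ^ 2 + 4 * y - 5) / (4 * y + 2) - log y)
      (4 * (y - 1) ^ 3 / ((4 * y + 2) ^ 2 * y)) y := by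
    intro y hy
    have h1 : HasDerivAt (fun y : ℝ => y ^ 2 + 4 * y - 5) (2 * y + 4) y := by
      have := ((hasDerivAt_pow 2 y).add ((hasDerivAt_id' y).const_mul 4)).sub_const 5
      exact this.congr_deriv (by norm_num)
    have h2 : HasDerivAt (fun y : ℝ => 4 * y + 2) 4 y := by
      have := ((hasDerivAt_id' y).const_mul 4).add_const 2
      exact this.congr_deriv (by norm_num)
    have h3 := (h1.div h2 (by positivity)).sub (Real.hasDerivAt_log hy.ne')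
    refine h3.congr_deriv ?_
    field_simp
    ring
  rcases le_total 1 x with h | h
  · have hm : MonotoneOn (fun y : ℝ => (y ^ 2 + 4 * y - 5) / (4 * y + 2) - log y) (Set.Icc 1 x) := by
      apply monotoneOn_of_hasDerivWithinAt_nonneg (convex_Icc 1 x)
        (f' := fun y => 4 * (y - 1) ^ 3 / ((4 * y + 2) ^ 2 * y))
      · intro y hy
        exact (hd y (by linarith [hy.1])).continuousAt.continuousWithinAt
      · intro y hy
        rw [interior_Icc] at hy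
        exact (hd y (by linarith [hy.1])).hasDerivWithinAt
      · intro y hy
        rw [interior_Icc] at hy
        have : 0 < y - 1 := by linarith [hy.1]
        have : 0 < y := by linarith
        positivity
    have := hm (Set.left_mem_Icc.2 h) (Set.right_mem_Icc.2 h) h
    simp only [log_one] at this
    norm_num at this
    linarith
  · have hm : AntitoneOn (fun y : ℝ => (y ^ 2 + 4 * y - 5) / (4 * y + 2) - log y) (Set.Icc x 1) := by
      apply antitoneOn_of_hasDerivWithinAt_nonpos (convex_Icc x 1)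
        (f' := fun y => 4 * (y - 1) ^ 3 / ((4 * y + 2) ^ 2 * y))
      · intro y hy
        exact (hd y (by linarith [hy.1])).continuousAt.continuousWithinAt
      · intro y hy
        rw [interior_Icc] at hy
        exact (hd y (by linarith [hy.1])).hasDerivWithinAt
      · intro y hy
        rw [interior_Icc] at hy
        have h1 : 0 < 1 - y := by linarith [hy.2]
        have h2 : 0 < y := by linarith [hy.1]
        have h3 : (y - 1) ^ 3 = - (1 - y) ^ 3 := by ring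
        rw [h3]
        have : 0 ≤ 4 * (1 - y) ^ 3 / ((4 * y + 2) ^ 2 * y) := by positivity
        calc 4 * -(1 - y) ^ 3 / ((4 * y + 2) ^ 2 * y) = -(4 * (1 - y) ^ 3 / ((4 * y + 2) ^ 2 * y)) := by
              ring
          _ ≤ 0 := by linarith
    have := hm (Set.left_mem_Icc.2 h) (Set.right_mem_Icc.2 h) h
    simp only [log_one] at this
    norm_num at this
    linarith

theorem pade_le_log {x : ℝ} (hx : 1 ≤ x) : 3 * (x ^ 2 - 1) / (x ^ 2 + 4 * x + 1) ≤ log x := by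
  have hd : ∀ y : ℝ, 0 < y → HasDerivAt (fun y : ℝ => log y - 3 * (y ^ 2 - 1) / (y ^ 2 + 4 * y + 1))
      ((y - 1) ^ 4 / ((y ^ 2 + 4 * y + 1) ^ 2 * y)) y := by
    intro y hy
    have h1 : HasDerivAt (fun y : ℝ => 3 * (y ^ 2 - 1)) (6 * y) y := by
      have := ((hasDerivAt_pow 2 y).sub_const 1).const_mul 3
      exact this.congr_deriv (by norm_num; ring)
    have h2 : HasDerivAt (fun y : ℝ => y ^ 2 + 4 * y + 1) (2 * y + 4) y := by
      have := ((hasDerivAt_pow 2 y).add ((hasDerivAt_id' y).const_mul 4)).add_const 1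
      exact this.congr_deriv (by norm_num)
    have h3 := (Real.hasDerivAt_log hy.ne').sub (h1.div h2 (by positivity))
    refine h3.congr_deriv ?_
    field_simp
    ring
  have hm : MonotoneOn (fun y : ℝ => log y - 3 * (y ^ 2 - 1) / (y ^ 2 + 4 * y + 1)) (Set.Icc 1 x) := by
    apply monotoneOn_of_hasDerivWithinAt_nonneg (convex_Icc 1 x)
      (f' := fun y => (y - 1) ^ 4 / ((y ^ 2 + 4 * y + 1) ^ 2 * y))
    · intro y hy
      exact (hd y (by linarith [hy.1])).continuousAt.continuousWithinAt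
    · intro y hy
      rw [interior_Icc] at hy
      exact (hd y (by linarith [hy.1])).hasDerivWithinAt
    · intro y hy
      rw [interior_Icc] at hy
      have : 0 < y - 1 := by linarith [hy.1]
      have : 0 < y := by linarith
      positivity
  have := hm (Set.left_mem_Icc.2 hx) (Set.right_mem_Icc.2 hx) hx
  simp only [log_one] at this
  norm_num at this
  linarith

theorem cc_lo : (1.4426 : ℝ) < cc := by
  unfold cc
  rw [lt_div_iff₀ (Real.log_pos (by norm_num))]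
  have := Real.log_two_lt_d9
  linarith

theorem cc_hi : cc < (1.4427 : ℝ) := by
  unfold cc
  rw [div_lt_iff₀ (Real.log_pos (by norm_num))]
  have := Real.log_two_gt_d9
  linarith

theorem logb_eq (x : ℝ) : logb 2 x = cc * log x := by
  unfold cc logb
  ring

/-- polynomial inequality 1 -/
theorem poly1 {m Y X : ℝ} (hm0 : 0 ≤ m) (hm1 : m ≤ 59 / 87) (hY0 : 0 ≤ Y) (hY1 : Y ≤ 9 / 25)
    (hX0 : 1.4426 ≤ X) (hX1 : X ≤ 1.4427) :
    0 ≤ 7 / 8 * (m + 1) ^ 2 * (9 - 4 * Y) + 9 * (7 / 8) * (m + 1) * X * Y -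
      7 / 8 * X ^ 2 * Y * (36 - Y) / 4 - m * (m + 1) * X * (9 - 2 * Y) / 2 - m * X ^ 2 * (36 - Y) / 4 := by
  have hX2 : X ^ 2 ≤ 2.08139 := by nlinarith
  have e1 : 7 / 8 * X ^ 2 * Y * (36 - Y) / 4 ≤ 7 / 8 * 2.08139 * Y * (36 - Y) / 4 := by
    have : 0 ≤ Y * (36 - Y) := by nlinarith
    nlinarith
  have e2 : m * X ^ 2 * (36 - Y) / 4 ≤ m * 2.08139 * (36 - Y) / 4 := by
    have : 0 ≤ m * (36 - Y) := by nlinarith
    nlinarith
  have e3 : 9 * (7 / 8) * (m + 1) * 1.4426 * Y ≤ 9 * (7 / 8) * (m + 1) * X * Y := by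
    have : 0 ≤ (m + 1) * Y := by positivity
    nlinarith
  have e4 : m * (m + 1) * X * (9 - 2 * Y) / 2 ≤ m * (m + 1) * 1.4427 * (9 - 2 * Y) / 2 := by
    have : 0 ≤ m * (m + 1) * (9 - 2 * Y) := by
      have : 0 ≤ 9 - 2 * Y := by linarith
      positivity
    nlinarith
  have key : 0 ≤ 7 / 8 * (m + 1) ^ 2 * (9 - 4 * Y) + 9 * (7 / 8) * (m + 1) * 1.4426 * Y -
      7 / 8 * 2.08139 * Y * (36 - Y) / 4 - m * (m + 1) * 1.4427 * (9 - 2 * Y) / 2 -
      m * 2.08139 * (36 - Y) / 4 := by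
    nlinarith [mul_nonneg hm0 hY0, mul_nonneg (sub_nonneg.2 hm1) (sub_nonneg.2 hY1),
      mul_nonneg (sub_nonneg.2 hm1) hY0, mul_nonneg hm0 (sub_nonneg.2 hY1),
      mul_nonneg (sub_nonneg.2 hm1) (sub_nonneg.2 hm1),
      mul_nonneg (mul_nonneg (sub_nonneg.2 hm1) (sub_nonneg.2 hm1)) (sub_nonneg.2 hY1)]
  linarith

theorem quad_bound {c0 c1 c2 m a0 a1 a2 : ℝ} (hm : 0 ≤ m) (h0 : a0 ≤ c0) (h1 : -a1 ≤ c1)
    (h2 : a2 ≤ c2) (ha2 : 0 < a2) (hd : a1 ^ 2 ≤ 4 * a0 * a2) : 0 ≤ c0 + c1 * m + c2 * m ^ 2 := by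
  have b1 := mul_nonneg (sub_nonneg.2 h1) hm
  have b2 := mul_nonneg (sub_nonneg.2 h2) (sq_nonneg m)
  have b3 : 0 ≤ 4 * a2 * (a0 - a1 * m + a2 * m ^ 2) := by
    have : 4 * a2 * (a0 - a1 * m + a2 * m ^ 2) = (2 * a2 * m - a1) ^ 2 + (4 * a0 * a2 - a1 ^ 2) := by
      ring
    rw [this]
    have := sq_nonneg (2 * a2 * m - a1)
    linarith
  have b4 : 0 ≤ a0 - a1 * m + a2 * m ^ 2 := by
    by_contra h
    push Not at h
    have : 4 * a2 * (a0 - a1 * m + a2 * m ^ 2) < 0 := mul_neg_of_pos_of_neg (by positivity) h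
    linarith
  linarith

theorem c0_bound {y : ℝ} (hy0 : 1 / 4 ≤ y) (hy1 : y ≤ 21 / 50) :
    (0.2 : ℝ) ≤ y ^ 2 * (5.25 - 4.0741750 * y - 1.2623625 * y ^ 2) := by
  have h1 : 3.3 ≤ 5.25 - 4.0741750 * y - 1.2623625 * y ^ 2 := by nlinarith
  have h2 : 1 / 16 ≤ y ^ 2 := by nlinarith
  nlinarith [mul_nonneg (sub_nonneg.2 h1) (sub_nonneg.2 h2)]

theorem c0_bound' {y : ℝ} (hy0 : 21 / 50 ≤ y) (hy1 : y ≤ 3 / 5) :
    (0.4 : ℝ) ≤ y ^ 2 * (5.25 - 4.0741750 * y - 1.2623625 * y ^ 2) := by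
  have h1 : 2.3 ≤ 5.25 - 4.0741750 * y - 1.2623625 * y ^ 2 := by nlinarith
  have h2 : (21 / 50) ^ 2 ≤ y ^ 2 := by nlinarith
  nlinarith [mul_nonneg (sub_nonneg.2 h1) (sub_nonneg.2 h2)]

theorem c1_bound {y z : ℝ} (hy0 : 0 ≤ y) (hz : z ≤ 3 / 5) (hy1 : y ≤ z) :
    3 - 9.6562 * z + 1.8073 * z ^ 2 + 3.5 * z ^ 3 ≤ 3 - 9.6562 * y + 1.8073 * y ^ 2 + 3.5 * y ^ 3 := by
  have e : (3 - 9.6562 * y + 1.8073 * y ^ 2 + 3.5 * y ^ 3) -
      (3 - 9.6562 * z + 1.8073 * z ^ 2 + 3.5 * z ^ 3) = (z - y) * (9.6562 - 1.8073 * (y + z) -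
      3.5 * (y ^ 2 + z * y + z ^ 2)) := by ring
  have h2 : 0 ≤ 9.6562 - 1.8073 * (y + z) - 3.5 * (y ^ 2 + z * y + z ^ 2) := by
    have a1 : y ^ 2 ≤ 9 / 25 := by nlinarith
    have a2 : z * y ≤ 9 / 25 := by nlinarith
    have a3 : z ^ 2 ≤ 9 / 25 := by nlinarith
    linarith
  have := mul_nonneg (sub_nonneg.2 hy1) h2
  linarith

/-- polynomial inequality 2 -/
theorem poly2' {m y : ℝ} (hm0 : 0 ≤ m) (hy0 : 0 ≤ y) (hy1 : y ≤ 3 / 5) :
    0 ≤ 7 / 8 * y ^ 2 * ((m + 1) * (6 + 4 * y) - 1.4427 * (y * (6 + y))) +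
      m * ((1 - y) * (m + 1) * (6 + 4 * y) / 2 - 1.4427 * (y * (6 + y))) := by
  have expand : 7 / 8 * y ^ 2 * ((m + 1) * (6 + 4 * y) - 1.4427 * (y * (6 + y))) +
        m * ((1 - y) * (m + 1) * (6 + 4 * y) / 2 - 1.4427 * (y * (6 + y))) =
        y ^ 2 * (5.25 - 4.0741750 * y - 1.2623625 * y ^ 2) +
        (3 - 9.6562 * y + 1.8073 * y ^ 2 + 3.5 * y ^ 3) * m +
        (3 - y - 2 * y ^ 2) * m ^ 2 := by ring
  rw [expand]
  rcases le_total y (1 / 4) with h | h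
  · have a2 : 0 ≤ 3 - y - 2 * y ^ 2 := by nlinarith
    have a1 : 0 ≤ 3 - 9.6562 * y + 1.8073 * y ^ 2 + 3.5 * y ^ 3 := by
      have := c1_bound hy0 (by norm_num : (1 / 4 : ℝ) ≤ 3 / 5) h
      norm_num at this
      linarith
    have a0 : 0 ≤ 5.25 - 4.0741750 * y - 1.2623625 * y ^ 2 := by nlinarith
    positivity
  · rcases le_total y (21 / 50) with h' | h'
    · refine quad_bound hm0 (c0_bound h h') (a1 := 0.4777) ?_ (a2 := 2.2) ?_ (by norm_num) (by norm_num)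
      · have := c1_bound hy0 (by norm_num : (21 / 50 : ℝ) ≤ 3 / 5) h'
        norm_num at this ⊢
        linarith
      · nlinarith
    · refine quad_bound hm0 (c0_bound' h' hy1) (a1 := 1.3872) ?_ (a2 := 1.68) ?_ (by norm_num) (by norm_num)
      · have := c1_bound hy0 (le_refl (3 / 5 : ℝ)) hy1
        norm_num at this ⊢
        linarith
      · nlinarith

theorem poly2 {m y X : ℝ} (hm0 : 0 ≤ m) (hy0 : 0 ≤ y) (hy1 : y ≤ 3 / 5) (hX1 : X ≤ 1.4427) :
    0 ≤ 7 / 8 * y ^ 2 * ((m + 1) * (6 + 4 * y) - X * (y * (6 + y))) +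
      m * ((1 - y) * (m + 1) * (6 + 4 * y) / 2 - X * (y * (6 + y))) := by
  have h0 : 0 ≤ (7 / 8 * y ^ 2 + m) * (y * (6 + y)) := by positivity
  have key := poly2' hm0 hy0 hy1
  nlinarith [mul_nonneg (sub_nonneg.2 hX1) h0]

theorem T_nonneg {m y X a b : ℝ} (hm0 : 0 ≤ m) (hm1 : m ≤ 59 / 87) (hy0 : 0 ≤ y) (hy1 : y ≤ 3 / 5)
    (hX0 : 1.4426 ≤ X) (hX1 : X ≤ 1.4427) (ha : a ≤ y * (6 + y) / (6 + 4 * y))
    (hb : y * (6 - y) / (6 - 4 * y) ≤ b) :
    0 ≤ 7 / 8 * y ^ 2 * ((m + 1 - X * a) * (m + 1 + X * b)) -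
      m * ((1 + y) / 2 * (X * a) * (m + 1 + X * b) - (1 - y) / 2 * (X * b) * (m + 1 - X * a)) := by
  obtain ⟨A, hA⟩ : ∃ A, A = y * (6 + y) / (6 + 4 * y) := ⟨_, rfl⟩
  obtain ⟨B, hB⟩ : ∃ B, B = y * (6 - y) / (6 - 4 * y) := ⟨_, rfl⟩
  rw [← hA] at ha
  rw [← hB] at hb
  have hd1 : 0 < 6 + 4 * y := by linarith
  have hd2 : 0 < 6 - 4 * y := by linarith
  have hX : 0 < X := by linarith
  have hB0 : 0 ≤ B := by
    rw [hB]
    have : 0 ≤ 6 - y := by linarith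
    positivity
  have hb0 : 0 ≤ b := hB0.trans hb
  have h1 : 0 ≤ 7 / 8 * y ^ 2 * ((m + 1 - X * A) * (m + 1 + X * B)) -
      m * ((1 + y) / 2 * (X * A) * (m + 1 + X * B) - (1 - y) / 2 * (X * B) * (m + 1 - X * A)) := by
    have hY1 : y ^ 2 ≤ 9 / 25 := by nlinarith
    have hP := poly1 (Y := y ^ 2) hm0 hm1 (sq_nonneg y) hY1 hX0 hX1
    have hd : 0 < 9 - 4 * y ^ 2 := by linarith
    have hA' : (6 + 4 * y) * A = y * (6 + y) := by rw [hA]; field_simp
    have hB' : (6 - 4 * y) * B = y * (6 - y) := by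
      rw [hB]
      exact mul_div_cancel₀ _ hd2.ne'
    have e : (7 / 8 * y ^ 2 * ((m + 1 - X * A) * (m + 1 + X * B)) -
      m * ((1 + y) / 2 * (X * A) * (m + 1 + X * B) - (1 - y) / 2 * (X * B) * (m + 1 - X * A))) *
        ((6 + 4 * y) * (6 - 4 * y)) =
      4 * (y ^ 2 * (7 / 8 * (m + 1) ^ 2 * (9 - 4 * y ^ 2) + 9 * (7 / 8) * (m + 1) * X * y ^ 2 -
      7 / 8 * X ^ 2 * y ^ 2 * (36 - y ^ 2) / 4 - m * (m + 1) * X * (9 - 2 * y ^ 2) / 2 -
        m * X ^ 2 * (36 - y ^ 2) / 4)) := by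
      linear_combination (-(7 / 8) * y ^ 2 * (m + 1) * X - m * (m + 1) * X * (1 + y) / 2) *
        (6 - 4 * y) * hA' + (7 / 8 * y ^ 2 * (m + 1) * X + m * (m + 1) * X * (1 - y) / 2) *
        (6 + 4 * y) * hB' - (7 / 8 * y ^ 2 + m) * X ^ 2 * ((6 - 4 * y) * B * hA' +
          y * (6 + y) * hB')
    have h4 : 0 ≤ 4 * (y ^ 2 * (7 / 8 * (m + 1) ^ 2 * (9 - 4 * y ^ 2) +
      9 * (7 / 8) * (m + 1) * X * y ^ 2 -
      7 / 8 * X ^ 2 * y ^ 2 * (36 - y ^ 2) / 4 - m * (m + 1) * X * (9 - 2 * y ^ 2) / 2 -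
        m * X ^ 2 * (36 - y ^ 2) / 4)) := mul_nonneg (by norm_num) (mul_nonneg (sq_nonneg y) hP)
    rw [← e] at h4
    exact nonneg_of_mul_nonneg_left h4 (by positivity)
  have h2 : 0 ≤ (b - B) * (X * (7 / 8 * y ^ 2 * (m + 1 - X * A) + m * ((1 - y) * (m + 1) / 2 - X * A))) := by
    have hp := poly2 (X := X) hm0 hy0 hy1 hX1
    have e : 7 / 8 * y ^ 2 * (m + 1 - X * A) + m * ((1 - y) * (m + 1) / 2 - X * A) =
      (7 / 8 * y ^ 2 * ((m + 1) * (6 + 4 * y) - X * (y * (6 + y))) +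
      m * ((1 - y) * (m + 1) * (6 + 4 * y) / 2 - X * (y * (6 + y)))) / (6 + 4 * y) := by
      rw [hA]
      field_simp
    rw [e]
    have : 0 ≤ b - B := sub_nonneg.2 hb
    positivity
  have h3 : 0 ≤ (A - a) * (7 / 8 * y ^ 2 * X * (m + 1 + X * b) + m * X * ((1 + y) / 2 * (m + 1 + X * b) +
      (1 - y) / 2 * (X * b))) := by
    have e1 : 0 ≤ A - a := sub_nonneg.2 ha
    have e2 : 0 ≤ 1 - y := by linarith
    positivity
  nlinarith [h1, h2, h3]

/-- `J ≤ 7/8 y²` -/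
theorem J_le {m y : ℝ} (hm0 : 0 ≤ m) (hm1 : m ≤ 59 / 87) (hy0 : 0 ≤ y) (hy1 : y ≤ 3 / 5)
    (hP : lp y < m + 1) : J m y ≤ 7 / 8 * y ^ 2 := by
  have ha := log_le_pade (x := 1 + y) (by linarith)
  have hb := log_le_pade (x := 1 - y) (by linarith)
  have ha' : log (1 + y) ≤ y * (6 + y) / (6 + 4 * y) := by
    refine ha.trans (le_of_eq ?_)
    congr 1 <;> ring
  have hb' : y * (6 - y) / (6 - 4 * y) ≤ -log (1 - y) := by
    have : ((1 - y) ^ 2 + 4 * (1 - y) - 5) / (4 * (1 - y) + 2) = -(y * (6 - y) / (6 - 4 * y)) := by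
      rw [← neg_div]
      congr 1 <;> ring
    rw [this] at hb
    linarith
  have hT := T_nonneg hm0 hm1 hy0 hy1 cc_lo.le cc_hi.le ha' hb'
  have e1 : lp y = cc * log (1 + y) := logb_eq _
  have e2 : lm y = -(cc * -log (1 - y)) := by
    unfold lm
    rw [logb_eq]
    ring
  have hL : 0 ≤ cc * -log (1 - y) := by
    have h1 : 0 ≤ -log (1 - y) := by
      have := Real.log_nonpos (x := 1 - y) (by linarith) (by linarith)
      linarith
    have h2 := cc_lo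
    positivity
  unfold J ap am
  rw [e1] at hP ⊢
  rw [e2]
  obtain ⟨u, hu⟩ : ∃ u, u = cc * log (1 + y) := ⟨_, rfl⟩
  obtain ⟨v, hv⟩ : ∃ v, v = cc * -log (1 - y) := ⟨_, rfl⟩
  rw [← hu, ← hv] at hT
  rw [← hu] at hP ⊢
  rw [← hv] at hL ⊢
  have hP' : 0 < m + 1 - u := by linarith
  have hQ' : 0 < m + 1 - -v := by linarith
  have e : m * ((1 + y) / 2 * u * (1 / (m + 1 - u)) + (1 - y) / 2 * -v * (1 / (m + 1 - -v))) =
      (m * ((1 + y) / 2 * u * (m + 1 + v) - (1 - y) / 2 * v * (m + 1 - u))) /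
        ((m + 1 - u) * (m + 1 + v)) := by
    have hQ'' : m + 1 + v ≠ 0 := by linarith
    have : m + 1 - -v = m + 1 + v := by ring
    rw [this]
    field_simp
    ring
  rw [e, div_le_iff₀ (by have : 0 < m + 1 + v := by linarith
                         positivity)]
  linarith

/-- `0 ≤ J` -/
theorem J_nonneg {m y : ℝ} (hm0 : 0 ≤ m) (hy0 : 0 ≤ y) (hy1 : y < 1)
    (hP : lp y < m + 1) : 0 ≤ J m y := by
  have e1 : lp y = cc * log (1 + y) := logb_eq _
  have e2 : lm y = -(cc * -log (1 - y)) := by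
    unfold lm
    rw [logb_eq]
    ring
  have hcc : 0 < cc := by have := cc_lo; linarith
  have hv0 : 0 ≤ -log (1 - y) := by
    have := Real.log_nonpos (x := 1 - y) (by linarith) (by linarith)
    linarith
  have hu0 : 0 ≤ log (1 + y) := Real.log_nonneg (by linarith)
  have h1 : y ≤ (1 + y) * log (1 + y) := by
    have := Real.one_sub_inv_le_log_of_pos (x := 1 + y) (by linarith)
    have h2 := mul_le_mul_of_nonneg_left this (by linarith : (0 : ℝ) ≤ 1 + y)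
    have h3 : (1 + y) * (1 - (1 + y)⁻¹) = y := by
      have : (1 + y) ≠ 0 := by linarith
      field_simp
      ring
    linarith
  have h2 : (1 - y) * -log (1 - y) ≤ y := by
    have := Real.one_sub_inv_le_log_of_pos (x := 1 - y) (by linarith)
    have h2 := mul_le_mul_of_nonneg_left this (by linarith : (0 : ℝ) ≤ 1 - y)
    have h3 : (1 - y) * (1 - (1 - y)⁻¹) = -y := by
      have : (1 - y) ≠ 0 := by linarith
      field_simp
      ring
    linarith
  unfold J ap am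
  rw [e1] at hP ⊢
  rw [e2]
  obtain ⟨u, hu⟩ : ∃ u, u = cc * log (1 + y) := ⟨_, rfl⟩
  obtain ⟨v, hv⟩ : ∃ v, v = cc * -log (1 - y) := ⟨_, rfl⟩
  have hu1 : 0 ≤ u := by rw [hu]; positivity
  have hv1 : 0 ≤ v := by rw [hv]; positivity
  have huv : (1 - y) * v ≤ (1 + y) * u := by
    rw [hu, hv]
    have := mul_le_mul_of_nonneg_left (h2.trans h1) hcc.le
    linarith
  rw [← hu] at hP ⊢
  rw [← hv]
  have hP' : 0 < m + 1 - u := by linarith
  have hQ' : 0 < m + 1 - -v := by linarith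
  have e : m * ((1 + y) / 2 * u * (1 / (m + 1 - u)) + (1 - y) / 2 * -v * (1 / (m + 1 - -v))) =
      (m * ((m + 1) * ((1 + y) * u - (1 - y) * v) / 2 + u * v)) /
        ((m + 1 - u) * (m + 1 + v)) := by
    have hQ'' : m + 1 + v ≠ 0 := by linarith
    have : m + 1 - -v = m + 1 + v := by ring
    rw [this]
    field_simp
    ring
  rw [e]
  have : 0 ≤ (1 + y) * u - (1 - y) * v := by linarith
  have : 0 < m + 1 + v := by linarith
  positivity

end BaseAux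

end Pool.MP324
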