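import Pool.Agent.H28.TL.Base1
import Pool.Agent.H28.TL.Base2

/-! # Crew TL, part BASE -/

set_option autoImplicit false

namespace Pool.MP324

open Real

namespace BaseAux

theorem poly3 {u : ℝ} (h0 : 0 ≤ u) (h1 : u ≤ 3 / 13) :
    (7 / 8 * (7 / 4 + 2.8852 * u) ^ 3 + 297 / 40) * ((1 + u) * (3 - u ^ 2)) ≤
      8.6556 * (1 - u) ^ 2 * (7 / 4 + 2.8852 * u) ^ 3 := by
  have h2 : u ^ 2 ≤ 3 / 13 * u := by nlinarith
  have h3 : u ^ 3 ≤ 3 / 13 * u ^ 2 := by nlinarith [sq_nonneg u]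
  have h4 : u ^ 4 ≤ (3 / 13) ^ 2 * u ^ 2 := by nlinarith [sq_nonneg u]
  have h5 : 0 ≤ u ^ 5 := by positivity
  have h6 : 0 ≤ u ^ 6 := by positivity
  have key : 0 ≤ (10.0452 : ℝ) + 30.737 * u - 206.406 * u ^ 2 -
        461.683 * u ^ 3 - 39.108 * u ^ 4 := by nlinarith
  nlinarith [key, h5, h6, h3, h4, pow_nonneg h0 3, pow_nonneg h0 4]

theorem poly4 {u : ℝ} (h0 : 0 ≤ u) (h1 : u ≤ 0.0437) :
    13.2 * ((1 + u) * (3 - u ^ 2)) ≤ 8.6556 * (1 - u) ^ 2 * (7 / 4 + 2.8852 * u) ^ 3 := by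
  have h2 : (5.359 : ℝ) ≤ (7 / 4 + 2.8852 * u) ^ 3 := by
    have : (7 / 4 : ℝ) ^ 3 ≤ (7 / 4 + 2.8852 * u) ^ 3 := by
      apply pow_le_pow_left₀ (by norm_num)
      linarith
    norm_num at this ⊢
    linarith
  have h3 : (0.914 : ℝ) ≤ (1 - u) ^ 2 := by nlinarith
  have h4 : (1 + u) * (3 - u ^ 2) ≤ 3.2 := by nlinarith
  have h5 : (0.914 : ℝ) * 5.359 ≤ (1 - u) ^ 2 * (7 / 4 + 2.8852 * u) ^ 3 :=
    mul_le_mul h3 h2 (by norm_num) (by positivity)
  nlinarith

theorem logb_le : logb 2 (8 / 5 : ℝ) ≤ 59 / 87 := by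
  have h : (8 / 5 : ℝ) ^ 87 ≤ 2 ^ 59 := by norm_num
  have h2 := Real.log_le_log (by positivity) h
  rw [Real.log_pow, Real.log_pow] at h2
  rw [Real.logb, div_le_iff₀ (Real.log_pos (by norm_num))]
  push_cast at h2
  linarith

theorem main_f {t y : ℝ} (ht1 : 1 < t) (ht2 : t ≤ 8 / 5) (hy0 : 0 ≤ y) (hy1 : y ≤ t - 1) :
    f (logb 2 t) y * (t * (t - 1)) ≤ 2 * logb 2 t * y ^ 2 := by
  obtain ⟨m, hm⟩ : ∃ m, m = logb 2 t := ⟨_, rfl⟩
  have hmt : m = cc * log t := by rw [hm, logb_eq]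
  have hm0 : 0 < m := by rw [hm]; exact Real.logb_pos (by norm_num) ht1
  have hm1 : m ≤ 59 / 87 := by
    rw [hm]
    exact (Real.logb_le_logb_of_le (by norm_num) (by linarith) ht2).trans logb_le
  have hy35 : y ≤ 3 / 5 := by linarith
  have hP : lp y < m + 1 := by
    have : lp y ≤ m := by
      rw [hm]
      exact Real.logb_le_logb_of_le (by norm_num) (by linarith) (by linarith)
    linarith
  have hJ1 := J_le hm0.le hm1 hy0 hy35 hP
  have hJ0 := J_nonneg hm0.le hy0 (by linarith) hP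
  rw [← hm]
  -- the variable `u`
  obtain ⟨u, hu⟩ : ∃ u, u = (t - 1) / (t + 1) := ⟨_, rfl⟩
  have hu0 : 0 < u := by rw [hu]; exact div_pos (by linarith) (by linarith)
  have hu1 : u ≤ 3 / 13 := by
    rw [hu, div_le_iff₀ (by linarith)]
    linarith
  have h1u : 0 < 1 - u := by linarith
  have ht : t = (1 + u) / (1 - u) := by
    rw [eq_div_iff h1u.ne', hu]
    field_simp
    ring
  have h3u : 0 < 3 - u ^ 2 := by nlinarith
  have hlog : 6 * u / (3 - u ^ 2) ≤ log t := by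
    have := pade_le_log ht1.le
    refine le_trans (le_of_eq ?_) this
    have hd : t ^ 2 + 4 * t + 1 = 2 * (3 - u ^ 2) / (1 - u) ^ 2 := by
      rw [ht]
      field_simp
      ring
    have hn : 3 * (t ^ 2 - 1) = 12 * u / (1 - u) ^ 2 := by
      rw [ht]
      field_simp
      ring
    rw [hd, hn]
    field_simp
    ring
  have hm2 : 8.6556 * u / (3 - u ^ 2) ≤ m := by
    have h1 : 0 ≤ 6 * u / (3 - u ^ 2) := by positivity
    have h2 : 1.4426 * (6 * u / (3 - u ^ 2)) ≤ cc * log t :=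
      mul_le_mul cc_lo.le hlog h1 (by have := cc_lo; linarith)
    rw [hmt]
    refine le_trans (le_of_eq ?_) h2
    ring
  have hm3 : 2.8852 * u ≤ m := by
    refine le_trans ?_ hm2
    rw [le_div_iff₀ h3u]
    nlinarith [mul_pos hu0 hu0, mul_pos hu0 (mul_pos hu0 hu0)]
  obtain ⟨D, hD⟩ : ∃ D, D = 7 / 4 + 2.8852 * u := ⟨_, rfl⟩
  have hD0 : 0 < D := by rw [hD]; linarith
  have hD3 : D ^ 3 ≤ (m + 7 / 4) ^ 3 := pow_le_pow_left₀ hD0.le (by rw [hD]; linarith) 3
  have hw : w m * D ^ 3 ≤ 33 / 5 := by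
    unfold w
    rw [div_mul_eq_mul_div, div_le_iff₀ (by positivity)]
    nlinarith
  have hw0 : 0 < w m := by unfold w; positivity
  have hbound : t * (t - 1) = 2 * u * (1 + u) / (1 - u) ^ 2 := by
    rw [ht]
    field_simp
    ring
  have hq : q y ≤ 2 * y ^ 2 := by
    unfold q
    nlinarith [sq_nonneg (y ^ 2)]
  -- it suffices to bound the factor
  have suff : ∀ k : ℝ, 0 ≤ k → f m y ≤ k * y ^ 2 → k * ((1 + u) * (3 - u ^ 2)) ≤ 8.6556 * (1 - u) ^ 2 →
      f m y * (t * (t - 1)) ≤ 2 * m * y ^ 2 := by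
    intro k hk0 hk hk2
    have htt : 0 ≤ t * (t - 1) := by nlinarith
    have h1 : k * (t * (t - 1)) ≤ 2 * m := by
      have e1 : k * (t * (t - 1)) ≤ 2 * (8.6556 * u / (3 - u ^ 2)) := by
        rw [hbound, mul_div_assoc', mul_div_assoc', div_le_div_iff₀ (by positivity) h3u]
        nlinarith [mul_le_mul_of_nonneg_left hk2 hu0.le]
      linarith
    calc f m y * (t * (t - 1)) ≤ k * y ^ 2 * (t * (t - 1)) := mul_le_mul_of_nonneg_right hk htt
      _ = k * (t * (t - 1)) * y ^ 2 := by ring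
      _ ≤ 2 * m * y ^ 2 := mul_le_mul_of_nonneg_right h1 (sq_nonneg y)
  rcases le_total (w m) 1 with hw1 | hw1
  · apply suff (7 / 8 + 9 / 8 * w m) (by positivity)
    · unfold f
      nlinarith [mul_le_mul_of_nonneg_left hJ1 (sub_nonneg.2 hw1), mul_le_mul_of_nonneg_left hq hw0.le]
    · have hp := poly3 hu0.le hu1
      rw [← hD] at hp
      have hD3' : 0 < D ^ 3 := by positivity
      have h4 : (7 / 8 + 9 / 8 * w m) * ((1 + u) * (3 - u ^ 2)) * D ^ 3 ≤
          8.6556 * (1 - u) ^ 2 * D ^ 3 := by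
        refine le_trans ?_ hp
        have h5 : 0 ≤ (1 + u) * (3 - u ^ 2) := by positivity
        have h6 : (7 / 8 + 9 / 8 * w m) * D ^ 3 ≤ 7 / 8 * D ^ 3 + 297 / 40 := by linarith
        calc (7 / 8 + 9 / 8 * w m) * ((1 + u) * (3 - u ^ 2)) * D ^ 3
            = (7 / 8 + 9 / 8 * w m) * D ^ 3 * ((1 + u) * (3 - u ^ 2)) := by ring
          _ ≤ _ := mul_le_mul_of_nonneg_right h6 h5
      exact le_of_mul_le_mul_right h4 hD3'
  · apply suff (2 * w m) (by positivity)
    · unfold f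
      nlinarith [mul_nonneg (sub_nonneg.2 hw1) hJ0, mul_le_mul_of_nonneg_left hq hw0.le]
    · have hu2 : u ≤ 0.0437 := by
        by_contra hcon
        push Not at hcon
        have h1 : (1.876 : ℝ) ≤ D := by rw [hD]; linarith
        have h2 : (1.876 : ℝ) ^ 3 ≤ D ^ 3 := pow_le_pow_left₀ (by norm_num) h1 3
        have h3 : D ^ 3 ≤ w m * D ^ 3 := by nlinarith [pow_pos hD0 3]
        norm_num at h2
        linarith
      have hp := poly4 hu0.le hu2
      rw [← hD] at hp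
      have hD3' : 0 < D ^ 3 := by positivity
      have h4 : 2 * w m * ((1 + u) * (3 - u ^ 2)) * D ^ 3 ≤ 8.6556 * (1 - u) ^ 2 * D ^ 3 := by
        refine le_trans ?_ hp
        have h5 : 0 ≤ (1 + u) * (3 - u ^ 2) := by positivity
        have h6 : 2 * w m * D ^ 3 ≤ 13.2 := by linarith
        calc 2 * w m * ((1 + u) * (3 - u ^ 2)) * D ^ 3
            = 2 * w m * D ^ 3 * ((1 + u) * (3 - u ^ 2)) := by ring
          _ ≤ _ := mul_le_mul_of_nonneg_right h6 h5
      exact le_of_mul_le_mul_right h4 hD3'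

theorem f_zero (m : ℝ) : f m 0 = 0 := by
  unfold f J q lp lm
  simp

end BaseAux

open BaseAux in
theorem BASE : S_BASE := by
  intro n B hB hm
  have hc : (0 : ℝ) < B.card := by exact_mod_cast hB.card_pos
  have hN : (0 : ℝ) < 2 ^ n := by positivity
  have hcN : (B.card : ℝ) ≤ 2 ^ n := by
    have := Finset.card_le_univ B
    simp only [Fintype.card_fun, Fintype.card_bool, Fintype.card_fin] at this
    exact_mod_cast this
  obtain ⟨t, ht⟩ : ∃ t : ℝ, t = 2 ^ n / B.card := ⟨_, rfl⟩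
  have hmt : mm B = logb 2 t := by
    unfold mm
    rw [ht, ← Real.logb_inv, inv_div]
  have ht1 : 1 ≤ t := by rw [ht, le_div_iff₀ hc]; linarith
  have ht2 : t ≤ 8 / 5 := by
    rw [hmt] at hm
    unfold m0 at hm
    exact (Real.logb_le_logb (by norm_num) (by linarith) (by norm_num)).1 hm
  have hbias : ∀ i, |bias B i| ≤ t - 1 := by
    intro i
    have := abs_bias_le B hB i
    rw [sub_div, div_self hc.ne', ← ht] at this
    exact this
  have hsum := sum_sq_le B hB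
  have hsum' : ∑ i, |bias B i| ^ 2 ≤ t * (t - 1) / 2 := by
    refine hsum.trans (le_of_eq ?_)
    rw [ht]
    field_simp
  rcases ht1.eq_or_lt with h1 | h1
  · have hz : ∀ i, |bias B i| = 0 := by
      intro i
      have := hbias i
      have h2 := abs_nonneg (bias B i)
      linarith
    rw [hmt, ← h1]
    simp [hz, f_zero]
  · rw [hmt]
    have htt : 0 < t * (t - 1) := mul_pos (by linarith) (by linarith)
    have hm0 : 0 < logb 2 t := Real.logb_pos (by norm_num) h1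
    have h3 : (∑ i, f (logb 2 t) |bias B i|) * (t * (t - 1)) ≤
        logb 2 t * (t * (t - 1)) := by
      rw [Finset.sum_mul]
      calc ∑ i, f (logb 2 t) |bias B i| * (t * (t - 1))
          ≤ ∑ i, 2 * logb 2 t * |bias B i| ^ 2 :=
            Finset.sum_le_sum fun i _ => main_f h1 ht2 (abs_nonneg _) (hbias i)
        _ = 2 * logb 2 t * ∑ i, |bias B i| ^ 2 := by rw [Finset.mul_sum]
        _ ≤ 2 * logb 2 t * (t * (t - 1) / 2) := mul_le_mul_of_nonneg_left hsum' (by positivity)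
        _ = logb 2 t * (t * (t - 1)) := by ring
    exact le_of_mul_le_mul_right h3 htt

end Pool.MP324
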