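import Pool.Agent.H77.TL.Stm

/-! # Crew TL, part BASE: the level one inequality for dense sets, combinatorial part -/

set_option autoImplicit false

namespace Pool.MP324

open Finset

namespace BaseAux

variable {n : ℕ}

noncomputable def sg (z : Fin n → Bool) (i : Fin n) : ℝ := if z i = true then 1 else -1

theorem sg_sq (z : Fin n → Bool) (i : Fin n) : sg z i * sg z i = 1 := by
  unfold sg; split_ifs <;> norm_num

theorem abs_sg (z : Fin n → Bool) (i : Fin n) : |sg z i| = 1 := by
  unfold sg; split_ifs <;> simp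

/-- flip of one coordinate -/
def flip (i : Fin n) (z : Fin n → Bool) : Fin n → Bool := Function.update z i (!z i)

theorem flip_inv (i : Fin n) : Function.Involutive (flip (n := n) i) := by
  intro z
  unfold flip
  ext j
  by_cases h : j = i
  · subst h; simp
  · simp [Function.update_of_ne h]

theorem sg_flip_self (i : Fin n) (z : Fin n → Bool) : sg (flip i z) i = - sg z i := by
  unfold sg flip
  cases h : z i <;> simp [h]

theorem sg_flip_ne (i j : Fin n) (h : j ≠ i) (z : Fin n → Bool) : sg (flip i z) j = sg z j := by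
  unfold sg flip
  rw [Function.update_of_ne h]

theorem sum_sg (i : Fin n) : ∑ z : Fin n → Bool, sg z i = 0 := by
  have h := Equiv.sum_comp (Function.Involutive.toPerm _ (flip_inv i)) (fun z => sg z i)
  simp only [Function.Involutive.coe_toPerm, sg_flip_self, Finset.sum_neg_distrib] at h
  linarith

theorem sum_sg_sg (i j : Fin n) : ∑ z : Fin n → Bool, sg z i * sg z j =
    if i = j then (2 : ℝ) ^ n else 0 := by
  split_ifs with hij
  · subst hij
    simp [sg_sq]
  · have h := Equiv.sum_comp (Function.Involutive.toPerm _ (flip_inv i))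
      (fun z => sg z i * sg z j)
    simp only [Function.Involutive.coe_toPerm, sg_flip_self,
      sg_flip_ne i j (Ne.symm hij), neg_mul, Finset.sum_neg_distrib] at h
    linarith

theorem bias_eq (B : Finset (Fin n → Bool)) (i : Fin n) :
    bias B i = (∑ z ∈ B, sg z i) / (B.card : ℝ) := by
  unfold bias
  congr 1
  unfold sg
  rw [Finset.sum_ite, Finset.sum_const, Finset.sum_const]
  have : (B.filter fun z => ¬ z i = true) = B.filter fun z => z i = false := by
    apply Finset.filter_congr
    intro z _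
    simp
  rw [this]
  simp
  ring

theorem sum_compl (B : Finset (Fin n → Bool)) (i : Fin n) :
    ∑ z ∈ B, sg z i = - ∑ z ∈ Bᶜ, sg z i := by
  have := Finset.sum_add_sum_compl B (fun z => sg z i)
  rw [sum_sg] at this
  linarith

theorem card_compl_real (B : Finset (Fin n → Bool)) :
    (Bᶜ.card : ℝ) = 2 ^ n - B.card := by
  rw [Finset.card_compl, Nat.cast_sub (Finset.card_le_univ B)]
  simp

theorem abs_bias_le (B : Finset (Fin n → Bool)) (hB : B.Nonempty) (i : Fin n) :
    |bias B i| ≤ (2 ^ n - B.card) / (B.card : ℝ) := by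
  have hc : (0 : ℝ) < B.card := by exact_mod_cast hB.card_pos
  rw [bias_eq, sum_compl, abs_div, abs_neg, abs_of_pos hc, ← card_compl_real]
  apply div_le_div_of_nonneg_right _ hc.le
  calc |∑ z ∈ Bᶜ, sg z i| ≤ ∑ z ∈ Bᶜ, |sg z i| := Finset.abs_sum_le_sum_abs _ _
    _ = Bᶜ.card := by simp [abs_sg]

theorem sum_sq_le (B : Finset (Fin n → Bool)) (hB : B.Nonempty) :
    ∑ i, |bias B i| ^ 2 ≤ 2 ^ n * (2 ^ n - B.card) / (2 * (B.card : ℝ) ^ 2) := by
  have hc : (0 : ℝ) < B.card := by exact_mod_cast hB.card_pos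
  set A : Fin n → ℝ := fun i => ∑ z ∈ Bᶜ, sg z i with hA
  set S : ℝ := ∑ i, A i ^ 2 with hS
  have hS0 : 0 ≤ S := Finset.sum_nonneg fun i _ => sq_nonneg _
  have h1 : ∑ i, |bias B i| ^ 2 = S / (B.card : ℝ) ^ 2 := by
    rw [hS, Finset.sum_div]
    refine Finset.sum_congr rfl fun i _ => ?_
    rw [sq_abs, bias_eq, sum_compl, div_pow, neg_sq]
  let l : (Fin n → Bool) → ℝ := fun z => ∑ i, A i * sg z i
  have hl : S = ∑ z ∈ Bᶜ, l z := by
    rw [hS]
    simp only [l]
    rw [Finset.sum_comm]
    refine Finset.sum_congr rfl fun i _ => ?_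
    rw [← Finset.mul_sum, sq]
  have hl2 : ∑ z, l z ^ 2 = 2 ^ n * S := by
    simp only [l, sq, Finset.sum_mul_sum]
    rw [Finset.sum_comm]
    rw [hS, Finset.mul_sum]
    refine Finset.sum_congr rfl fun i _ => ?_
    rw [Finset.sum_comm]
    have : ∀ j, ∑ z : Fin n → Bool, A i * sg z i * (A j * sg z j) =
        A i * A j * ∑ z : Fin n → Bool, sg z i * sg z j := by
      intro j
      rw [Finset.mul_sum]
      refine Finset.sum_congr rfl fun z _ => by ring
    simp only [this, sum_sg_sg]
    rw [Finset.sum_eq_single i]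
    · simp; ring
    · intro j _ hj
      rw [if_neg (Ne.symm hj)]
      ring
    · intro h
      exact absurd (Finset.mem_univ i) h
  -- negation
  have hneg : ∑ z, (max (l z) 0) ^ 2 = (∑ z, l z ^ 2) / 2 := by
    have hinv : Function.Involutive (fun (z : Fin n → Bool) (i : Fin n) => !z i) := by
      intro z; funext i; simp
    have hln : ∀ z : Fin n → Bool, l (fun i => !z i) = - l z := by
      intro z
      simp only [l]
      rw [← Finset.sum_neg_distrib]
      refine Finset.sum_congr rfl fun i _ => ?_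
      have : sg (fun i => !z i) i = - sg z i := by
        unfold sg
        cases h : z i <;> simp [h]
      rw [this]; ring
    have h := Equiv.sum_comp (Function.Involutive.toPerm _ hinv) (fun z => (max (l z) 0) ^ 2)
    simp only [Function.Involutive.coe_toPerm, hln] at h
    have h2 : ∑ z, l z ^ 2 = ∑ z, ((max (l z) 0) ^ 2 + (max (-l z) 0) ^ 2) := by
      refine Finset.sum_congr rfl fun z _ => ?_
      rcases le_total (l z) 0 with h | h
      · rw [max_eq_right h, max_eq_left (by linarith : (0 : ℝ) ≤ - l z)]; ring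
      · rw [max_eq_left h, max_eq_right (by linarith : - l z ≤ (0 : ℝ))]; ring
    rw [h2, Finset.sum_add_distrib, h]
    ring
  have h3 : S ^ 2 ≤ (2 ^ n - B.card) * (2 ^ n * S / 2) := by
    have a1 : S ≤ ∑ z ∈ Bᶜ, max (l z) 0 := by
      rw [hl]
      exact Finset.sum_le_sum fun z _ => le_max_left _ _
    have a2 : (∑ z ∈ Bᶜ, max (l z) 0) ^ 2 ≤ Bᶜ.card * ∑ z ∈ Bᶜ, (max (l z) 0) ^ 2 :=
      sq_sum_le_card_mul_sum_sq
    have a3 : ∑ z ∈ Bᶜ, (max (l z) 0) ^ 2 ≤ ∑ z, (max (l z) 0) ^ 2 :=
      Finset.sum_le_sum_of_subset_of_nonneg (Finset.subset_univ _) fun _ _ _ => sq_nonneg _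
    rw [hneg, hl2] at a3
    rw [card_compl_real] at a2
    have hd : (0 : ℝ) ≤ 2 ^ n - B.card := by
      rw [← card_compl_real]; positivity
    calc S ^ 2 ≤ (∑ z ∈ Bᶜ, max (l z) 0) ^ 2 := by
          apply pow_le_pow_left₀ hS0 a1
      _ ≤ _ := a2
      _ ≤ _ := mul_le_mul_of_nonneg_left a3 hd
  have h4 : S ≤ 2 ^ n * (2 ^ n - B.card) / 2 := by
    rcases hS0.eq_or_lt with h0 | h0
    · rw [← h0]
      have hd : (0 : ℝ) ≤ 2 ^ n - B.card := by
        rw [← card_compl_real]; positivity
      positivity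
    · have : S * S ≤ S * (2 ^ n * (2 ^ n - B.card) / 2) := by nlinarith [h3]
      exact le_of_mul_le_mul_left this h0
  rw [h1, div_le_div_iff₀ (by positivity) (by positivity)]
  nlinarith [h4, sq_nonneg (B.card : ℝ), mul_le_mul_of_nonneg_right h4 (sq_nonneg (B.card : ℝ))]

end BaseAux

end Pool.MP324
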